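import Pool.Agent.R138.Herm3

/-! # MP_943595_co: Hermitian plus `ω` times rank-one matrices in characteristic two give
valuated Delta-matroids -/

namespace Pool.Agent.Results.MP_943595_co.Valuated

open Matrix Finset Pool.Agent.R138.Herm

/-- `M` is Hermitian with respect to the conjugation `σ` -/
def IsHerm {K : Type*} [Field K] (σ : K →+* K) {n : ℕ} (M : Matrix (Fin n) (Fin n) K) : Prop :=
  ∀ i j, M j i = σ (M i j)

/-- the function `S ↦ ν(A_S)`, where `A_S` is the principal minor -/
noncomputable def minorVal {K : Type*} [Field K] (ν : AddValuation K (WithTop ℝ)) {n : ℕ}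
    (A : Matrix (Fin n) (Fin n) K) (S : Finset (Fin n)) : WithTop ℝ :=
  ν (A.submatrix (fun i : S => (i : Fin n)) (fun i : S => (i : Fin n))).det

/-- The segment from `e_S` to `e_T` is an edge of the regular subdivision induced by `p`: for some
linear functional `w` the minimum of `p(U) + w(e_U)` is finite and attained exactly at `S` and
`T`. -/
def IsEdge {n : ℕ} (p : Finset (Fin n) → WithTop ℝ) (S T : Finset (Fin n)) : Prop :=
  S ≠ T ∧ p S ≠ ⊤ ∧ ∃ w : Fin n → ℝ,
    p T + ((∑ i ∈ T, w i : ℝ) : WithTop ℝ) = p S + ((∑ i ∈ S, w i : ℝ) : WithTop ℝ) ∧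
    ∀ U, U ≠ S → U ≠ T →
      p S + ((∑ i ∈ S, w i : ℝ) : WithTop ℝ) < p U + ((∑ i ∈ U, w i : ℝ) : WithTop ℝ)

/-- the vertex `e_S` of the cube -/
def vert {n : ℕ} (S : Finset (Fin n)) : Fin n → ℝ := fun i => if i ∈ S then 1 else 0

/-- the vector `d` is parallel to some `e_i` or to some `e_i ± e_j` with `i ≠ j` -/
def IsDeltaDirection {n : ℕ} (d : Fin n → ℝ) : Prop :=
  ∃ c : ℝ, (∃ i, d = c • (Pi.single i 1 : Fin n → ℝ)) ∨
    ∃ i j, i ≠ j ∧ (d = c • (Pi.single i 1 + Pi.single j 1 : Fin n → ℝ) ∨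
      d = c • (Pi.single i 1 - Pi.single j 1 : Fin n → ℝ))

/-- `p` is a valuated Delta-matroid: it is somewhere finite, and every edge of the regular
subdivision it induces is parallel to some `e_i` or `e_i ± e_j`. -/
def IsValuatedDeltaMatroid {n : ℕ} (p : Finset (Fin n) → WithTop ℝ) : Prop :=
  (∃ S, p S ≠ ⊤) ∧ ∀ S T, IsEdge p S T → IsDeltaDirection (vert S - vert T)

/-- exponential of minus an extended real number -/
noncomputable def ex : WithTop ℝ → ℝ
  | ⊤ => 0
  | (a : ℝ) => Real.exp (-a)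

theorem ex_top : ex ⊤ = 0 := rfl

theorem ex_coe (a : ℝ) : ex (a : WithTop ℝ) = Real.exp (-a) := rfl

theorem ex_nonneg (a : WithTop ℝ) : 0 ≤ ex a := by
  induction a using WithTop.recTopCoe with
  | top => exact le_rfl
  | coe a => exact (Real.exp_pos _).le

theorem ex_pos {a : WithTop ℝ} (h : a ≠ ⊤) : 0 < ex a := by
  induction a using WithTop.recTopCoe with
  | top => exact absurd rfl h
  | coe a => exact Real.exp_pos _

theorem ex_add (a b : WithTop ℝ) : ex (a + b) = ex a * ex b := by
  induction a using WithTop.recTopCoe with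
  | top => rw [WithTop.top_add, ex_top, zero_mul]
  | coe a =>
    induction b using WithTop.recTopCoe with
    | top => rw [WithTop.add_top, ex_top, mul_zero]
    | coe b => rw [← WithTop.coe_add, ex_coe, ex_coe, ex_coe, ← Real.exp_add, neg_add]

theorem ex_lt {a b : WithTop ℝ} (h : a < b) : ex b < ex a := by
  induction b using WithTop.recTopCoe with
  | top => exact ex_pos h.ne
  | coe b =>
    induction a using WithTop.recTopCoe with
    | top => exact absurd h (not_top_lt)
    | coe a =>
      rw [ex_coe, ex_coe, Real.exp_lt_exp]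
      have : a < b := WithTop.coe_lt_coe.1 h
      linarith

theorem ex_le {a b : WithTop ℝ} (h : a ≤ b) : ex b ≤ ex a := by
  rcases h.lt_or_eq with h | h
  · exact (ex_lt h).le
  · rw [h]

/-- the absolute value of a valuation -/
noncomputable def absVal {K : Type*} [Field K] (ν : AddValuation K (WithTop ℝ)) :
    AbsoluteValue K ℝ where
  toFun x := ex (ν x)
  map_mul' x y := by rw [AddValuation.map_mul, ex_add]
  nonneg' x := ex_nonneg _
  eq_zero' x := by
    constructor
    · intro h
      by_contra hx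
      have h1 : ν x ≠ ⊤ := fun h2 => hx ((AddValuation.top_iff ν).1 h2)
      exact (ex_pos h1).ne' h
    · rintro rfl
      rw [AddValuation.map_zero, ex_top]
  add_le' x y := by
    have h1 := ν.map_add x y
    have h2 : ex (ν (x + y)) ≤ ex (min (ν x) (ν y)) := ex_le h1
    refine h2.trans ?_
    rcases min_choice (ν x) (ν y) with h | h
    · rw [h]
      linarith [ex_nonneg (ν y)]
    · rw [h]
      linarith [ex_nonneg (ν x)]

theorem absVal_ultra {K : Type*} [Field K] (ν : AddValuation K (WithTop ℝ)) :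
    Ultra (absVal ν) := by
  intro x y
  have h1 := ν.map_add x y
  have h2 : ex (ν (x + y)) ≤ ex (min (ν x) (ν y)) := ex_le h1
  refine h2.trans ?_
  rcases min_choice (ν x) (ν y) with h | h
  · rw [h]
    exact le_max_left _ _
  · rw [h]
    exact le_max_right _ _

/-- a Hermitian matrix of rank one is `c` times `u` times the conjugate transpose of `u` -/
theorem rank_one {K : Type*} [Field K] (σ : K →+* K) (hσ : ∀ a, σ (σ a) = a) {n : ℕ}
    (C : Matrix (Fin n) (Fin n) K) (hC : IsHerm σ C) (hrank : C.rank = 1) :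
    ∃ (c : K) (u : Fin n → K), c ≠ 0 ∧ σ c = c ∧ C = c • vecMulVec u (fun j => σ (u j)) := by
  rw [Matrix.rank, finrank_eq_one_iff'] at hrank
  obtain ⟨⟨x, hx⟩, hx0, hspan⟩ := hrank
  have hcol : ∀ j, ∃ a : K, ∀ i, C i j = x i * a := by
    intro j
    obtain ⟨a, ha⟩ := hspan ⟨C.mulVecLin (Pi.single j 1), LinearMap.mem_range_self _ _⟩
    refine ⟨a, fun i => ?_⟩
    have h1 : (a • x) i = (C.mulVecLin (Pi.single j 1)) i :=
      congrFun (congrArg Subtype.val ha) i
    rw [Pi.smul_apply, smul_eq_mul, mulVecLin_apply, mulVec_single_one] at h1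
    rw [mul_comm, h1]
    rfl
  choose y hy using hcol
  have hne : ∃ i j, C i j ≠ 0 := by
    by_contra hcon
    push Not at hcon
    obtain ⟨z, hz⟩ := hx
    apply hx0
    ext i
    have : C = 0 := by
      ext i j
      exact hcon i j
    rw [this] at hz
    have h1 := congrFun hz i
    simpa using h1.symm
  obtain ⟨i₀, j₀, h0⟩ := hne
  rw [hy] at h0
  have hy0 : y j₀ ≠ 0 := right_ne_zero_of_mul h0
  have hx0' : x i₀ ≠ 0 := left_ne_zero_of_mul h0
  set c : K := σ (x j₀) / y j₀ with hc
  have hxc : ∀ j, x j = c * σ (y j) := by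
    intro j
    have h1 := hC j₀ j
    rw [hy, hy, map_mul] at h1
    rw [hc]
    field_simp
    exact h1
  have hCc : ∀ i j, C i j = c * (σ (y i) * y j) := by
    intro i j
    rw [hy, hxc]
    ring
  have hc0 : c ≠ 0 := by
    intro h1
    apply hx0'
    rw [hxc, h1, zero_mul]
  have hcσ : σ c = c := by
    have h1 := hC j₀ j₀
    rw [hCc, map_mul, map_mul, hσ] at h1
    have h2 : σ (y j₀) * y j₀ ≠ 0 := mul_ne_zero (fun h3 => hy0 (by
      rw [← hσ (y j₀), h3, map_zero])) hy0
    have h3 : (σ c - c) * (σ (y j₀) * y j₀) = 0 := by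
      linear_combination -h1
    rcases mul_eq_zero.1 h3 with h4 | h4
    · exact sub_eq_zero.1 h4
    · exact absurd h4 h2
  refine ⟨c, fun i => σ (y i), hc0, hcσ, ?_⟩
  ext i j
  rw [hCc, Matrix.smul_apply, vecMulVec_apply, smul_eq_mul, hσ]

theorem direction_of_card {n : ℕ} (S T : Finset (Fin n)) (hne : S ≠ T)
    (h : (symmDiff S T).card ≤ 2) : IsDeltaDirection (vert S - vert T) := by
  set d := vert S - vert T with hd
  have hval : ∀ i ∈ symmDiff S T, d i = 1 ∨ d i = -1 := by
    intro i hi
    rw [mem_symmDiff] at hi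
    rw [hd, Pi.sub_apply, vert, vert]
    rcases hi with ⟨h1, h2⟩ | ⟨h1, h2⟩
    · left; simp [h1, h2]
    · right; simp [h1, h2]
  have hzero : ∀ i, i ∉ symmDiff S T → d i = 0 := by
    intro i hi
    rw [mem_symmDiff] at hi
    rw [hd, Pi.sub_apply, vert, vert]
    by_cases h1 : i ∈ S <;> by_cases h2 : i ∈ T <;> simp_all
  have hcases : (symmDiff S T).card = 0 ∨ (symmDiff S T).card = 1 ∨ (symmDiff S T).card = 2 := by
    omega
  rcases hcases with h0 | h1 | h2
  · exfalso
    apply hne
    rw [Finset.card_eq_zero] at h0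
    exact symmDiff_eq_bot.1 h0
  · obtain ⟨i, hi⟩ := Finset.card_eq_one.1 h1
    refine ⟨d i, Or.inl ⟨i, ?_⟩⟩
    ext k
    rw [Pi.smul_apply, smul_eq_mul]
    by_cases hk : k = i
    · rw [hk, Pi.single_eq_same, mul_one]
    · rw [Pi.single_eq_of_ne hk, mul_zero]
      exact hzero k (by rw [hi, mem_singleton]; exact hk)
  · obtain ⟨i, j, hij, hi⟩ := Finset.card_eq_two.1 h2
    have hdi := hval i (by rw [hi]; simp)
    have hdj := hval j (by rw [hi]; simp)
    refine ⟨d i, Or.inr ⟨i, j, hij, ?_⟩⟩
    by_cases heq : d j = d i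
    · left
      ext k
      rw [Pi.smul_apply, smul_eq_mul, Pi.add_apply]
      by_cases hk : k = i
      · rw [hk, Pi.single_eq_same, Pi.single_eq_of_ne hij]; ring
      by_cases hk' : k = j
      · rw [hk', Pi.single_eq_same, Pi.single_eq_of_ne hij.symm, heq]; ring
      rw [Pi.single_eq_of_ne hk, Pi.single_eq_of_ne hk',
        hzero k (by rw [hi, mem_insert, mem_singleton]; tauto)]
      ring
    · right
      have hneg : d j = - d i := by
        rcases hdi with h3 | h3 <;> rcases hdj with h4 | h4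
        · exact absurd (h4.trans h3.symm) heq
        · rw [h3, h4]
        · rw [h3, h4, neg_neg]
        · exact absurd (h4.trans h3.symm) heq
      ext k
      rw [Pi.smul_apply, smul_eq_mul, Pi.sub_apply]
      by_cases hk : k = i
      · rw [hk, Pi.single_eq_same, Pi.single_eq_of_ne hij]; ring
      by_cases hk' : k = j
      · rw [hk', Pi.single_eq_same, Pi.single_eq_of_ne hij.symm, hneg]; ring
      rw [Pi.single_eq_of_ne hk, Pi.single_eq_of_ne hk',
        hzero k (by rw [hi, mem_insert, mem_singleton]; tauto)]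
      ring

/-- **Main theorem.** Let `K` be a field of characteristic two with a valuation
`ν : K → ℝ ∪ {∞}` and a valuation-preserving involution `σ`, and let `ω` be an element with
`σ ω = ω + 1`. If `B` and `C` are Hermitian and `C` has rank one, the valuations of the principal
minors of `B + ω C` form a valuated Delta-matroid. -/
theorem result {K : Type*} [Field K] [CharP K 2] (ν : AddValuation K (WithTop ℝ)) (σ : K →+* K)
    (hσ : ∀ a, σ (σ a) = a) (hν : ∀ a, ν (σ a) = ν a) (ω : K) (hω : σ ω = ω + 1) {n : ℕ}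
    (B C : Matrix (Fin n) (Fin n) K) (hB : IsHerm σ B) (hC : IsHerm σ C) (hrank : C.rank = 1) :
    IsValuatedDeltaMatroid (minorVal ν (B + ω • C)) := by
  obtain ⟨c, u, hc0, hcσ, rfl⟩ := rank_one σ hσ C hC hrank
  refine ⟨⟨∅, ?_⟩, ?_⟩
  · rw [minorVal, det_isEmpty, AddValuation.map_one]
    exact WithTop.zero_ne_top
  intro S T hedge
  obtain ⟨hne, hfin, w, hST, hlt⟩ := hedge
  apply direction_of_card S T hne
  have hA : B + ω • c • vecMulVec u (fun j => σ (u j)) =
      B + (ω * c) • vecMulVec u (fun j => σ (u j)) := by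
    rw [smul_smul]
  rw [hA] at hfin hST hlt
  set A := B + (ω * c) • vecMulVec u (fun j => σ (u j)) with hAdef
  have hP : ∀ U, P (absVal ν) A (fun i => Real.exp (-(w i))) U =
      ex (minorVal ν A U + ((∑ i ∈ U, w i : ℝ) : WithTop ℝ)) := by
    intro U
    rw [P, ex_add, ex_coe, ← Finset.sum_neg_distrib, Real.exp_sum, minorVal, pm_eq]
    rfl
  refine main_mul (absVal_ultra ν) σ hσ ?_ ω ?_ B ?_ c hc0 hcσ u (fun i => Real.exp (-(w i)))
    (fun i => Real.exp_pos _) S T ?_ ?_ ?_
  · intro x
    change ex (ν (σ x)) = ex (ν x)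
    rw [hν]
  · rw [hω]
    intro h
    exact one_ne_zero (left_eq_add.1 h.symm)
  · ext i j
    rw [ct_apply]
    exact (hB j i).symm
  · rw [hP]
    apply ex_pos
    rw [WithTop.add_ne_top]
    exact ⟨hfin, WithTop.coe_ne_top⟩
  · rw [hP, hP, hST]
  · intro U hUS hUT
    rw [hP, hP]
    exact ex_lt (hlt U hUS hUT)

end Pool.Agent.Results.MP_943595_co.Valuated
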